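import Mathlib
import Pool.Agent.H5.CNTVDefs
import Pool.Agent.H5.CNTV2

namespace Pool.Agent.Results.MP_98ebd8_lc.No
open Pool.Agent.H5.CNTV

theorem result : ∃ S : Spacetime (ℝ × ℂ) 2, S.CNTV ∧ S.After2 := ⟨ST, cntv, after2⟩

end Pool.Agent.Results.MP_98ebd8_lc.No
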